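import Mathlib

/-! # A sum over derangements and roots of unity -/

set_option autoImplicit false

namespace Pool.Agent.Results.MP_cc6741_nt.DerangementSum

open Finset Equiv

/-- the sum over the derangements `τ` of `n` points of `∏_j 1/(1 - ζ^{j - τ(j)})` -/
noncomputable def derSum (n : ℕ) (ζ : ℂ) : ℂ :=
  ∑ τ ∈ (univ : Finset (Perm (Fin n))).filter (fun τ => ∀ j, τ j ≠ j),
    ∏ j : Fin n, 1 / (1 - ζ ^ ((j : ℤ) - (τ j : ℤ)))

section rec

variable {α : Type} [Fintype α] [DecidableEq α] (x : α → ℂ) (χ : Perm α → ℂ)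

/-- the permutations that fix every point outside `S` -/
def PS (S : Finset α) : Finset (Perm α) := univ.filter (fun σ => ∀ j, j ∉ S → σ j = j)

/-- the weighted sum over the permutations of `S`; the ones with a fixed point in `S` contribute
`0`, since `0⁻¹ = 0` -/
noncomputable def F (S : Finset α) : ℂ := ∑ σ ∈ PS S, χ σ * ∏ j ∈ S, (x (σ j) - x j)⁻¹

theorem PS_mem {S : Finset α} {σ : Perm α} (h : σ ∈ PS S) {j : α} (hj : j ∈ S) : σ j ∈ S := by
  unfold PS at h
  rw [mem_filter] at h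
  by_contra hcon
  have h1 := h.2 (σ j) hcon
  have h2 : σ j = j := σ.injective h1
  rw [h2] at hcon
  exact hcon hj

theorem PS_out {S : Finset α} {σ : Perm α} (h : σ ∈ PS S) {j : α} (hj : j ∉ S) : σ j = j := by
  unfold PS at h
  rw [mem_filter] at h
  exact h.2 j hj

theorem F_empty (h1 : χ 1 = 1) : F x χ ∅ = 1 := by
  unfold F
  have : PS (∅ : Finset α) = {1} := by
    ext σ
    unfold PS
    rw [mem_filter, mem_singleton]
    constructor
    · rintro ⟨_, h⟩
      ext j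
      exact h j (by simp)
    · rintro rfl
      exact ⟨mem_univ _, fun j _ => rfl⟩
  rw [this]
  simp [h1]

theorem three_term (u v w : ℂ) (h1 : u ≠ v) (h2 : v ≠ w) (h3 : u ≠ w) :
    (w - u)⁻¹ * (u - v)⁻¹ = (w - v)⁻¹ * ((u - v)⁻¹ - (u - w)⁻¹) := by
  have e1 : u - v ≠ 0 := sub_ne_zero.2 h1
  have e2 : w - v ≠ 0 := sub_ne_zero.2 h2.symm
  have e3 : u - w ≠ 0 := sub_ne_zero.2 h3
  have e4 : w - u ≠ 0 := sub_ne_zero.2 h3.symm
  field_simp
  ring

theorem F_rec (hx : Function.Injective x) (ε : ℂ)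
    (hχ : ∀ a b : α, a ≠ b → ∀ σ, χ (swap a b * σ) = ε * χ σ) (S : Finset α) (a : α) (ha : a ∈ S) :
    F x χ S = ε * ∑ c ∈ S.erase a, (x c - x a)⁻¹ * (x a - x c)⁻¹ * F x χ ((S.erase a).erase c) := by
  -- drop the permutations fixing `a`
  have h1 : F x χ S = ∑ τ ∈ (PS S).filter (fun τ => τ a ≠ a),
      χ τ * ∏ j ∈ S, (x (τ j) - x j)⁻¹ := by
    unfold F
    rw [Finset.sum_filter]
    refine Finset.sum_congr rfl fun τ _ => ?_
    by_cases h : τ a ≠ a
    · rw [if_pos h]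
    · rw [if_neg h]
      rw [not_not] at h
      have : ∏ j ∈ S, (x (τ j) - x j)⁻¹ = 0 := by
        apply Finset.prod_eq_zero ha
        rw [h, sub_self, inv_zero]
      rw [this, mul_zero]
  -- the bijection
  have h2 : ∑ τ ∈ (PS S).filter (fun τ => τ a ≠ a), χ τ * ∏ j ∈ S, (x (τ j) - x j)⁻¹ =
      ∑ y ∈ (PS (S.erase a)) ×ˢ (S.erase a), ε * (χ y.1 * ((x (y.1 y.2) - x a)⁻¹ *
        (x a - x y.2)⁻¹ * ∏ j ∈ (S.erase a).erase y.2, (x (y.1 j) - x j)⁻¹)) := by
    refine Finset.sum_bij' (fun τ _ => (swap a (τ a) * τ, τ⁻¹ a))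
      (fun y _ => swap a (y.1 y.2) * y.1) ?_ ?_ ?_ ?_ ?_
    · intro τ hτ
      rw [mem_filter] at hτ
      obtain ⟨hτ1, hτ2⟩ := hτ
      rw [mem_product]
      constructor
      · unfold PS
        rw [mem_filter]
        refine ⟨mem_univ _, fun j hj => ?_⟩
        show swap a (τ a) (τ j) = j
        rw [mem_erase, not_and_or, not_not] at hj
        rcases hj with hj | hj
        · rw [hj, swap_apply_right]
        · rw [PS_out hτ1 hj]
          apply swap_apply_of_ne_of_ne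
          · intro h; rw [h] at hj; exact hj ha
          · intro h; rw [h] at hj; exact hj (PS_mem hτ1 ha)
      · show τ⁻¹ a ∈ S.erase a
        rw [mem_erase]
        constructor
        · intro h
          apply hτ2
          nth_rewrite 1 [← h]
          exact Equiv.apply_symm_apply τ a
        · by_contra hcon
          have h3 := PS_out hτ1 hcon
          have h4 : τ (τ⁻¹ a) = a := Equiv.apply_symm_apply τ a
          rw [h4] at h3
          rw [← h3] at hcon
          exact hcon ha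
    · rintro ⟨σ, c⟩ hy
      rw [mem_product] at hy
      obtain ⟨hσ, hc⟩ := hy
      simp only at hσ hc ⊢
      have hca : c ≠ a := (mem_erase.1 hc).1
      have hσa : σ a = a := PS_out hσ (Finset.notMem_erase a S)
      have hσc : σ c ∈ S.erase a := PS_mem hσ hc
      rw [mem_filter]
      constructor
      · unfold PS
        rw [mem_filter]
        refine ⟨mem_univ _, fun j hj => ?_⟩
        show swap a (σ c) (σ j) = j
        have hj' : j ∉ S.erase a := fun h => hj (mem_erase.1 h).2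
        rw [PS_out hσ hj']
        apply swap_apply_of_ne_of_ne
        · intro h; rw [h] at hj; exact hj ha
        · intro h; rw [h] at hj'; exact hj' hσc
      · show swap a (σ c) (σ a) ≠ a
        rw [hσa, swap_apply_left]
        exact (mem_erase.1 hσc).1
    · intro τ hτ
      show swap a ((swap a (τ a) * τ) (τ⁻¹ a)) * (swap a (τ a) * τ) = τ
      have h3 : (swap a (τ a) * τ) (τ⁻¹ a) = τ a := by
        show swap a (τ a) (τ (τ⁻¹ a)) = τ a
        have h4 : τ (τ⁻¹ a) = a := Equiv.apply_symm_apply τ a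
        rw [h4, swap_apply_left]
      rw [h3, ← mul_assoc, swap_mul_self, one_mul]
    · rintro ⟨σ, c⟩ hy
      rw [mem_product] at hy
      obtain ⟨hσ, hc⟩ := hy
      simp only at hσ hc ⊢
      have hσa : σ a = a := PS_out hσ (Finset.notMem_erase a S)
      have h3 : (swap a (σ c) * σ) a = σ c := by
        show swap a (σ c) (σ a) = σ c
        rw [hσa, swap_apply_left]
      have h4 : (swap a (σ c) * σ)⁻¹ a = c := by
        rw [Equiv.Perm.inv_eq_iff_eq]
        show a = swap a (σ c) (σ c)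
        rw [swap_apply_right]
      rw [h3, h4, ← mul_assoc, swap_mul_self, one_mul]
    · intro τ hτ
      rw [mem_filter] at hτ
      obtain ⟨hτ1, hτ2⟩ := hτ
      set c := τ⁻¹ a with hc
      have hτc : τ c = a := Equiv.apply_symm_apply τ a
      have hca : c ≠ a := by
        intro h; rw [h] at hτc; exact hτ2 hτc
      have hcS : c ∈ S.erase a := by
        rw [mem_erase]
        refine ⟨hca, ?_⟩
        by_contra hcon
        have h3 := PS_out hτ1 hcon
        rw [hτc] at h3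
        exact hca h3.symm
      set σ := swap a (τ a) * τ with hσ
      have hσc : σ c = τ a := by
        show swap a (τ a) (τ c) = τ a
        rw [hτc, swap_apply_left]
      have hτσ : τ = swap a (τ a) * σ := by
        rw [hσ, ← mul_assoc, swap_mul_self, one_mul]
      have hχτ : χ τ = ε * χ σ := by
        conv_lhs => rw [hτσ]
        exact hχ a (τ a) (fun h => hτ2 h.symm) σ
      have hprod : ∏ j ∈ S, (x (τ j) - x j)⁻¹ = (x (σ c) - x a)⁻¹ * (x a - x c)⁻¹ *
          ∏ j ∈ (S.erase a).erase c, (x (σ j) - x j)⁻¹ := by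
        rw [← Finset.mul_prod_erase S _ ha, ← Finset.mul_prod_erase (S.erase a) _ hcS, hτc, hσc,
          mul_assoc]
        congr 2
        refine Finset.prod_congr rfl fun j hj => ?_
        rw [mem_erase, mem_erase] at hj
        have h3 : σ j = τ j := by
          show swap a (τ a) (τ j) = τ j
          apply swap_apply_of_ne_of_ne
          · intro h
            apply hj.1
            rw [hc, ← h]
            exact (Equiv.symm_apply_apply τ j).symm
          · intro h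
            exact hj.2.1 (τ.injective h)
        rw [h3]
      show χ τ * ∏ j ∈ S, (x (τ j) - x j)⁻¹ = ε * (χ σ * ((x (σ c) - x a)⁻¹ *
        (x a - x c)⁻¹ * ∏ j ∈ (S.erase a).erase c, (x (σ j) - x j)⁻¹))
      rw [hχτ, hprod]
      ring
  rw [h1, h2, Finset.sum_product]
  -- the sum over `c` for a fixed `σ`
  have h3 : ∀ σ ∈ PS (S.erase a), ∑ c ∈ S.erase a, ε * (χ σ * ((x (σ c) - x a)⁻¹ *
        (x a - x c)⁻¹ * ∏ j ∈ (S.erase a).erase c, (x (σ j) - x j)⁻¹)) =
      ∑ c ∈ S.erase a, (if σ c = c then ε * (χ σ * ((x c - x a)⁻¹ *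
        (x a - x c)⁻¹ * ∏ j ∈ (S.erase a).erase c, (x (σ j) - x j)⁻¹)) else 0) := by
    intro σ hσ
    have h4 : ∀ c ∈ S.erase a, ε * (χ σ * ((x (σ c) - x a)⁻¹ *
        (x a - x c)⁻¹ * ∏ j ∈ (S.erase a).erase c, (x (σ j) - x j)⁻¹)) =
        (if σ c = c then ε * (χ σ * ((x c - x a)⁻¹ *
        (x a - x c)⁻¹ * ∏ j ∈ (S.erase a).erase c, (x (σ j) - x j)⁻¹)) else 0) +
        ε * χ σ * (∏ j ∈ S.erase a, (x (σ j) - x j)⁻¹) *
          ((x a - x c)⁻¹ - (x a - x (σ c))⁻¹) := by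
      intro c hc
      have hca : c ≠ a := (mem_erase.1 hc).1
      have hσc : σ c ∈ S.erase a := PS_mem hσ hc
      have hσca : σ c ≠ a := (mem_erase.1 hσc).1
      rw [← Finset.mul_prod_erase (S.erase a) _ hc]
      by_cases h : σ c = c
      · rw [if_pos h, h]
        ring
      · rw [if_neg h]
        have h5 := three_term (x a) (x c) (x (σ c)) (fun h' => hca (hx h').symm)
          (fun h' => h (hx h').symm) (fun h' => hσca (hx h').symm)
        rw [h5]
        ring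
    rw [Finset.sum_congr rfl h4, Finset.sum_add_distrib, ← Finset.mul_sum]
    have h5 : ∑ c ∈ S.erase a, ((x a - x c)⁻¹ - (x a - x (σ c))⁻¹) = 0 := by
      rw [Finset.sum_sub_distrib, sub_eq_zero]
      symm
      apply Equiv.Perm.sum_comp σ (S.erase a) (fun c => (x a - x c)⁻¹)
      intro j hj
      by_contra hcon
      exact hj (PS_out hσ hcon)
    rw [h5, mul_zero, add_zero]
  rw [Finset.sum_congr rfl h3, Finset.sum_comm, Finset.mul_sum]
  refine Finset.sum_congr rfl fun c hc => ?_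
  rw [← Finset.sum_filter]
  have h4 : (PS (S.erase a)).filter (fun σ => σ c = c) = PS ((S.erase a).erase c) := by
    ext σ
    unfold PS
    rw [mem_filter, mem_filter, mem_filter]
    constructor
    · rintro ⟨⟨_, h5⟩, h6⟩
      refine ⟨mem_univ _, fun j hj => ?_⟩
      rw [mem_erase, not_and_or, not_not] at hj
      rcases hj with hj | hj
      · rw [hj]; exact h6
      · exact h5 j hj
    · rintro ⟨_, h5⟩
      refine ⟨⟨mem_univ _, fun j hj => h5 j (fun h => hj (mem_erase.1 h).2)⟩, ?_⟩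
      exact h5 c (Finset.notMem_erase _ _)
  rw [h4]
  unfold F
  rw [Finset.mul_sum, Finset.mul_sum]
  refine Finset.sum_congr rfl fun σ _ => ?_
  ring

/-- the unsigned and the signed sums agree up to the sign `(-1)^m` -/
theorem F_compare (hx : Function.Injective x) (m : ℕ) : ∀ S : Finset α, S.card = 2 * m →
    F x (fun _ => 1) S = (-1) ^ m * F x (fun σ => ((Perm.sign σ : ℤˣ) : ℤ)) S := by
  induction m with
  | zero =>
    intro S hS
    have : S = ∅ := Finset.card_eq_zero.1 (by omega)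
    subst this
    rw [F_empty x _ rfl, F_empty x _ (by simp)]
    simp
  | succ m ih =>
    intro S hS
    obtain ⟨a, ha⟩ : S.Nonempty := Finset.card_pos.1 (by omega)
    rw [F_rec x (fun _ => 1) hx 1 (fun _ _ _ _ => by ring) S a ha,
      F_rec x (fun σ => ((Perm.sign σ : ℤˣ) : ℤ)) hx (-1) ?_ S a ha]
    · rw [Finset.mul_sum, Finset.mul_sum, Finset.mul_sum]
      refine Finset.sum_congr rfl fun c hc => ?_
      have hcard : ((S.erase a).erase c).card = 2 * m := by
        rw [Finset.card_erase_of_mem hc, Finset.card_erase_of_mem ha, hS]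
        omega
      rw [ih _ hcard]
      ring
    · intro b c hbc σ
      rw [Perm.sign_mul, Perm.sign_swap hbc]
      push_cast
      ring

theorem F_univ : F x χ univ = ∑ σ : Perm α, χ σ * ∏ j, (x (σ j) - x j)⁻¹ := by
  unfold F
  have : PS (univ : Finset α) = univ := by
    unfold PS
    simp
  rw [this]

end rec

/-! ### The determinant -/

section det

variable {n : ℕ} {ζ : ℂ}

/-- the `n`-th roots of unity -/
noncomputable def mu (n : ℕ) : Finset ℂ := Polynomial.nthRootsFinset n (1 : ℂ)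

theorem mem_mu (hn : 0 < n) (w : ℂ) : w ∈ mu n ↔ w ^ n = 1 := by
  unfold mu
  exact Polynomial.mem_nthRootsFinset hn 1

theorem one_mem_mu (hn : 0 < n) : (1 : ℂ) ∈ mu n := (mem_mu hn 1).2 (one_pow n)

theorem inv_mem_mu (hn : 0 < n) {w : ℂ} (hw : w ∈ mu n) : w⁻¹ ∈ mu n := by
  rw [mem_mu hn] at hw ⊢
  rw [inv_pow, hw, inv_one]

theorem ne_zero_of_mem (hn : 0 < n) {w : ℂ} (hw : w ∈ mu n) : w ≠ 0 := by
  rintro rfl
  rw [mem_mu hn, zero_pow (by omega)] at hw
  exact zero_ne_one hw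

theorem sum_mu (hn : 0 < n) (hζ : IsPrimitiveRoot ζ n) (g : ℂ → ℂ) (j : Fin n) :
    ∑ k : Fin n, g (ζ ^ ((j : ℤ) - (k : ℤ))) = ∑ w ∈ mu n, g w := by
  have hζ0 : ζ ≠ 0 := hζ.ne_zero (by omega)
  have hinj : Function.Injective (fun k : Fin n => ζ ^ ((j : ℤ) - (k : ℤ))) := by
    intro k k' h
    simp only at h
    rw [zpow_sub₀ hζ0, zpow_sub₀ hζ0] at h
    have h1 : ζ ^ (k : ℤ) = ζ ^ (k' : ℤ) := by
      have e1 : ζ ^ (j : ℤ) ≠ 0 := zpow_ne_zero _ hζ0
      have e2 : ζ ^ (k : ℤ) ≠ 0 := zpow_ne_zero _ hζ0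
      have e3 : ζ ^ (k' : ℤ) ≠ 0 := zpow_ne_zero _ hζ0
      rw [div_eq_div_iff e2 e3] at h
      exact (mul_left_cancel₀ e1 h).symm
    rw [zpow_natCast, zpow_natCast] at h1
    exact Fin.ext (hζ.pow_inj k.2 k'.2 h1)
  have himg : (univ : Finset (Fin n)).image (fun k : Fin n => ζ ^ ((j : ℤ) - (k : ℤ))) = mu n := by
    apply Finset.eq_of_subset_of_card_le
    · intro w hw
      rw [mem_image] at hw
      obtain ⟨k, _, rfl⟩ := hw
      rw [mem_mu hn, ← zpow_natCast, ← zpow_mul, mul_comm, zpow_mul, zpow_natCast, hζ.pow_eq_one,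
        one_zpow]
    · rw [Finset.card_image_of_injective _ hinj, Finset.card_univ, Fintype.card_fin]
      unfold mu
      rw [hζ.card_nthRootsFinset]
  rw [← himg, Finset.sum_image (fun k _ k' _ h => hinj h)]

theorem sum_inv_mu (hn : 0 < n) (g : ℂ → ℂ) : ∑ w ∈ mu n, g w⁻¹ = ∑ w ∈ mu n, g w := by
  refine Finset.sum_bij' (fun w _ => w⁻¹) (fun w _ => w⁻¹) (fun w hw => inv_mem_mu hn hw)
    (fun w hw => inv_mem_mu hn hw) (fun w _ => inv_inv w) (fun w _ => inv_inv w) (fun w _ => rfl)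

theorem power_sum (hn : 0 < n) (hζ : IsPrimitiveRoot ζ n) (s : ℕ) (hs : 0 < s) (hs' : s < n) :
    ∑ w ∈ mu n, w ^ s = 0 := by
  have h1 : ∑ w ∈ mu n, w ^ s = ζ ^ s * ∑ w ∈ mu n, w ^ s := by
    rw [Finset.mul_sum]
    have hζ0 : ζ ≠ 0 := hζ.ne_zero (by omega)
    symm
    refine Finset.sum_bij' (fun w _ => ζ * w) (fun w _ => ζ⁻¹ * w) ?_ ?_ ?_ ?_ ?_
    · intro w hw
      rw [mem_mu hn] at hw ⊢
      rw [mul_pow, hw, hζ.pow_eq_one, mul_one]
    · intro w hw
      rw [mem_mu hn] at hw ⊢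
      rw [mul_pow, hw, inv_pow, hζ.pow_eq_one, inv_one, mul_one]
    · intro w _
      show ζ⁻¹ * (ζ * w) = w
      rw [← mul_assoc, inv_mul_cancel₀ hζ0, one_mul]
    · intro w _
      show ζ * (ζ⁻¹ * w) = w
      rw [← mul_assoc, mul_inv_cancel₀ hζ0, one_mul]
    · intro w _
      rw [mul_pow]
  have h2 : ζ ^ s ≠ 1 := by
    intro h
    have := Nat.le_of_dvd hs ((hζ.pow_eq_one_iff_dvd s).1 h)
    omega
  have h3 : (1 - ζ ^ s) * ∑ w ∈ mu n, w ^ s = 0 := by
    linear_combination h1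
  rcases mul_eq_zero.1 h3 with h | h
  · exact absurd (sub_eq_zero.1 h).symm h2
  · exact h

/-- the eigenvalues -/
theorem eig (hn : 0 < n) (hζ : IsPrimitiveRoot ζ n) (r : ℕ) (hr : r < n) :
    ∑ w ∈ mu n, (1 - w)⁻¹ * (w⁻¹) ^ r = ((n : ℂ) - 1) / 2 - r := by
  induction r with
  | zero =>
    have h1 : ∑ w ∈ mu n, ((1 - w)⁻¹ + (1 - w⁻¹)⁻¹) = (n : ℂ) - 1 := by
      have h2 : ∀ w ∈ mu n, (1 - w)⁻¹ + (1 - w⁻¹)⁻¹ = 1 - (if w = 1 then (1 : ℂ) else 0) := by
        intro w hw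
        by_cases h : w = 1
        · subst h; simp
        · rw [if_neg h, sub_zero]
          have h0 := ne_zero_of_mem hn hw
          have e1 : 1 - w ≠ 0 := sub_ne_zero.2 (fun h' => h h'.symm)
          have e2 : 1 - w⁻¹ ≠ 0 := by
            intro h'
            apply h
            have h3 : w⁻¹ = 1 := by linear_combination -h'
            rw [← inv_inv w, h3, inv_one]
          have e3 : w - 1 ≠ 0 := sub_ne_zero.2 h
          have e4 : (1 - w⁻¹) = (w - 1) / w := by field_simp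
          rw [e4, inv_div]
          field_simp
          ring
      rw [Finset.sum_congr rfl h2, Finset.sum_sub_distrib, Finset.sum_ite_eq', if_pos
        (one_mem_mu hn), Finset.sum_const, nsmul_eq_mul, mul_one]
      unfold mu
      rw [hζ.card_nthRootsFinset]
    rw [Finset.sum_add_distrib, sum_inv_mu hn (fun w => (1 - w)⁻¹)] at h1
    simp only [pow_zero, mul_one]
    push_cast
    linear_combination h1 / 2
  | succ r ih =>
    have h1 := ih (by omega)
    have h2 : ∑ w ∈ mu n, (1 - w)⁻¹ * (w⁻¹) ^ (r + 1) - ∑ w ∈ mu n, (1 - w)⁻¹ * (w⁻¹) ^ r = -1 := by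
      rw [← Finset.sum_sub_distrib]
      have h3 : ∀ w ∈ mu n, (1 - w)⁻¹ * (w⁻¹) ^ (r + 1) - (1 - w)⁻¹ * (w⁻¹) ^ r =
          (w⁻¹) ^ (r + 1) - (if w = 1 then (1 : ℂ) else 0) := by
        intro w hw
        by_cases h : w = 1
        · subst h; simp
        · rw [if_neg h, sub_zero]
          have h0 := ne_zero_of_mem hn hw
          have e1 : 1 - w ≠ 0 := sub_ne_zero.2 (fun h' => h h'.symm)
          rw [pow_succ]
          have e4 : w⁻¹ - 1 = (1 - w) * w⁻¹ := by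
            rw [sub_mul, mul_inv_cancel₀ h0, one_mul]
          calc (1 - w)⁻¹ * (w⁻¹ ^ r * w⁻¹) - (1 - w)⁻¹ * w⁻¹ ^ r
              = (1 - w)⁻¹ * w⁻¹ ^ r * (w⁻¹ - 1) := by ring
            _ = ((1 - w)⁻¹ * (1 - w)) * (w⁻¹ ^ r * w⁻¹) := by rw [e4]; ring
            _ = w⁻¹ ^ r * w⁻¹ := by rw [inv_mul_cancel₀ e1, one_mul]
      rw [Finset.sum_congr rfl h3, Finset.sum_sub_distrib, Finset.sum_ite_eq', if_pos
        (one_mem_mu hn), sum_inv_mu hn (fun w => w ^ (r + 1)),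
        power_sum hn hζ (r + 1) (by omega) hr, zero_sub]
    push_cast
    linear_combination h1 + h2

/-- the matrix with entries `1/(1 - ζ^{j-k})` and zero diagonal -/
noncomputable def M (n : ℕ) (ζ : ℂ) : Matrix (Fin n) (Fin n) ℂ :=
  fun j k => (1 - ζ ^ ((j : ℤ) - (k : ℤ)))⁻¹

theorem det_M (hn : 0 < n) (hζ : IsPrimitiveRoot ζ n) :
    (M n ζ).det = ∏ r : Fin n, (((n : ℂ) - 1) / 2 - ((r : ℕ) : ℂ)) := by
  have hζ0 : ζ ≠ 0 := hζ.ne_zero (by omega)
  let V : Matrix (Fin n) (Fin n) ℂ := Matrix.vandermonde (fun k : Fin n => ζ ^ (k : ℕ))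
  have hV : V.det ≠ 0 := by
    rw [Matrix.det_vandermonde_ne_zero_iff]
    intro k k' h
    exact Fin.ext (hζ.pow_inj k.2 k'.2 h)
  have hMV : M n ζ * V = V * Matrix.diagonal (fun r : Fin n => (((n : ℂ) - 1) / 2 - ((r : ℕ) : ℂ))) := by
    ext j r
    rw [Matrix.mul_diagonal, Matrix.mul_apply]
    have h1 : ∀ k : Fin n, M n ζ j k * V k r = (ζ ^ (j : ℕ)) ^ (r : ℕ) *
        ((fun w : ℂ => (1 - w)⁻¹ * (w⁻¹) ^ (r : ℕ)) (ζ ^ ((j : ℤ) - (k : ℤ)))) := by
      intro k
      show (1 - ζ ^ ((j : ℤ) - (k : ℤ)))⁻¹ * (ζ ^ (k : ℕ)) ^ (r : ℕ) = (ζ ^ (j : ℕ)) ^ (r : ℕ) *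
        ((1 - ζ ^ ((j : ℤ) - (k : ℤ)))⁻¹ * ((ζ ^ ((j : ℤ) - (k : ℤ)))⁻¹) ^ (r : ℕ))
      have h2 : (ζ ^ (j : ℕ)) ^ (r : ℕ) * ((ζ ^ ((j : ℤ) - (k : ℤ)))⁻¹) ^ (r : ℕ) =
          (ζ ^ (k : ℕ)) ^ (r : ℕ) := by
        rw [← mul_pow]
        congr 1
        rw [zpow_sub₀ hζ0, zpow_natCast, zpow_natCast, inv_div]
        have e1 : ζ ^ (j : ℕ) ≠ 0 := pow_ne_zero _ hζ0
        field_simp
      rw [← h2]
      ring
    rw [Finset.sum_congr rfl (fun k _ => h1 k), ← Finset.mul_sum,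
      sum_mu hn hζ (fun w : ℂ => (1 - w)⁻¹ * (w⁻¹) ^ (r : ℕ)) j, eig hn hζ r r.2]
    rfl
  have hdet := congrArg Matrix.det hMV
  rw [Matrix.det_mul, Matrix.det_mul, Matrix.det_diagonal, mul_comm V.det] at hdet
  exact mul_right_cancel₀ hV hdet

end det

theorem double_fact (m : ℕ) : Nat.doubleFactorial (2 * m + 1) =
    (2 * m + 1) * Nat.doubleFactorial (2 * m - 1) := by
  cases m with
  | zero => rfl
  | succ m =>
    have h1 : 2 * (m + 1) + 1 = (2 * m + 1) + 2 := by ring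
    have h2 : 2 * (m + 1) - 1 = 2 * m + 1 := by omega
    rw [h1, Nat.doubleFactorial_add_two, h2]

theorem prod_eq (m : ℕ) : (-1 : ℂ) ^ m * ∏ r ∈ range (2 * m), ((2 * (m : ℂ) - 1) - 2 * (r : ℂ)) =
    ((Nat.doubleFactorial (2 * m - 1) : ℕ) : ℂ) ^ 2 := by
  induction m with
  | zero => simp
  | succ m ih =>
    rw [show 2 * (m + 1) = (2 * m + 1) + 1 by ring, Finset.prod_range_succ, Finset.prod_range_succ']
    have h1 : ∏ k ∈ range (2 * m), ((2 * ((m + 1 : ℕ) : ℂ) - 1) - 2 * ((k + 1 : ℕ) : ℂ)) =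
        ∏ r ∈ range (2 * m), ((2 * (m : ℂ) - 1) - 2 * (r : ℂ)) := by
      refine Finset.prod_congr rfl fun k _ => ?_
      push_cast
      ring
    rw [h1, show 2 * m + 1 + 1 - 1 = 2 * m + 1 by omega, double_fact, pow_succ]
    push_cast
    rw [mul_pow, ← ih]
    ring

theorem fact_eq (m : ℕ) : Nat.doubleFactorial (2 * m - 1) * (2 ^ m * m.factorial) =
    (2 * m).factorial := by
  cases m with
  | zero => rfl
  | succ m =>
    have h1 : 2 * (m + 1) = (2 * m + 1) + 1 := by ring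
    rw [← Nat.doubleFactorial_two_mul, h1, Nat.factorial_eq_mul_doubleFactorial,
      show 2 * m + 1 + 1 - 1 = 2 * m + 1 by omega, mul_comm]

theorem second_form (m : ℕ) : ((Nat.doubleFactorial (2 * m - 1) : ℕ) : ℂ) ^ 2 / 2 ^ (2 * m) =
    ((2 * m).factorial : ℂ) / 4 ^ (2 * m) * ((2 * m).choose m : ℂ) := by
  have h1 : (((Nat.doubleFactorial (2 * m - 1) : ℕ) : ℂ)) * (2 ^ m * (m.factorial : ℂ)) =
      ((2 * m).factorial : ℂ) := by exact_mod_cast fact_eq m
  have h2 : ((2 * m).choose m : ℂ) * (m.factorial : ℂ) * (m.factorial : ℂ) =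
      ((2 * m).factorial : ℂ) := by
    have := Nat.choose_mul_factorial_mul_factorial (show m ≤ 2 * m by omega)
    rw [show 2 * m - m = m by omega] at this
    exact_mod_cast this
  have hf : (m.factorial : ℂ) ≠ 0 := by exact_mod_cast m.factorial_ne_zero
  have h3 : ((2 * m).choose m : ℂ) = ((2 * m).factorial : ℂ) / ((m.factorial : ℂ) * m.factorial) := by
    rw [eq_div_iff (mul_ne_zero hf hf), ← mul_assoc]; exact h2
  rw [h3, ← h1]
  have h4 : (4 : ℂ) ^ (2 * m) = (2 ^ m) ^ 2 * 2 ^ (2 * m) := by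
    rw [← pow_mul, ← pow_add, show (4 : ℂ) = 2 ^ 2 by norm_num, ← pow_mul]
    congr 1
    ring
  rw [h4]
  field_simp

theorem main : ∀ n : ℕ, 1 < n → Even n → ∀ ζ : ℂ, IsPrimitiveRoot ζ n →
    derSum n ζ = ((Nat.doubleFactorial (n - 1) : ℕ) : ℂ) ^ 2 / 2 ^ n := by
  intro n hn heven ζ hζ
  obtain ⟨m, rfl⟩ := heven.two_dvd
  have hζ0 : ζ ≠ 0 := hζ.ne_zero (by omega)
  let x : Fin (2 * m) → ℂ := fun j => ζ ^ (j : ℕ)
  have hx : Function.Injective x := by
    intro k k' h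
    exact Fin.ext (hζ.pow_inj k.2 k'.2 h)
  have hentry : ∀ j k : Fin (2 * m), M (2 * m) ζ j k = x k * (x k - x j)⁻¹ := by
    intro j k
    show (1 - ζ ^ ((j : ℤ) - (k : ℤ)))⁻¹ = ζ ^ (k : ℕ) * (ζ ^ (k : ℕ) - ζ ^ (j : ℕ))⁻¹
    have e1 : ζ ^ (k : ℕ) ≠ 0 := pow_ne_zero _ hζ0
    rw [zpow_sub₀ hζ0, zpow_natCast, zpow_natCast]
    have h1 : 1 - ζ ^ (j : ℕ) / ζ ^ (k : ℕ) = (ζ ^ (k : ℕ) - ζ ^ (j : ℕ)) / ζ ^ (k : ℕ) := by
      rw [sub_div, div_self e1]
    rw [h1, inv_div, div_eq_mul_inv]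
  have hprod : ∀ τ : Perm (Fin (2 * m)), ∏ j, M (2 * m) ζ j (τ j) =
      (∏ j, x j) * ∏ j, (x (τ j) - x j)⁻¹ := by
    intro τ
    rw [Finset.prod_congr rfl (fun j _ => hentry j (τ j)), Finset.prod_mul_distrib,
      Equiv.prod_comp τ x]
  have h1 : derSum (2 * m) ζ = (∏ j, x j) * F x (fun _ => 1) univ := by
    unfold derSum
    rw [Finset.sum_filter, F_univ, Finset.mul_sum]
    refine Finset.sum_congr rfl fun τ _ => ?_
    rw [one_mul, ← hprod τ]
    by_cases h : ∀ j, τ j ≠ j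
    · rw [if_pos h]
      refine Finset.prod_congr rfl fun j _ => ?_
      rw [one_div]
      rfl
    · rw [if_neg h]
      push Not at h
      obtain ⟨j, hj⟩ := h
      symm
      apply Finset.prod_eq_zero (mem_univ j)
      rw [hj]
      show (1 - ζ ^ ((j : ℤ) - (j : ℤ)))⁻¹ = 0
      simp
  have h2 : (M (2 * m) ζ).det = (∏ j, x j) * F x (fun σ => ((Perm.sign σ : ℤˣ) : ℤ)) univ := by
    rw [← Matrix.det_transpose, Matrix.det_apply, F_univ, Finset.mul_sum]
    refine Finset.sum_congr rfl fun τ _ => ?_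
    have h3 := hprod τ
    have h4 : ∏ j, (M (2 * m) ζ).transpose (τ j) j = ∏ j, M (2 * m) ζ j (τ j) := rfl
    rw [h4, h3, Units.smul_def, zsmul_eq_mul]
    ring
  have h3 := F_compare x hx m univ (by rw [Finset.card_univ, Fintype.card_fin])
  have h4 : derSum (2 * m) ζ = (-1) ^ m * (M (2 * m) ζ).det := by
    rw [h1, h2, h3]; ring
  rw [h4, det_M (by omega) hζ, Fin.prod_univ_eq_prod_range
    (fun r : ℕ => ((((2 * m : ℕ) : ℂ) - 1) / 2 - (r : ℂ))) (2 * m)]
  have h5 : ∏ r ∈ range (2 * m), ((((2 * m : ℕ) : ℂ) - 1) / 2 - (r : ℂ)) =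
      (∏ r ∈ range (2 * m), ((2 * (m : ℂ) - 1) - 2 * (r : ℂ))) / 2 ^ (2 * m) := by
    have h6 : ∀ r ∈ range (2 * m), ((((2 * m : ℕ) : ℂ) - 1) / 2 - (r : ℂ)) =
        ((2 * (m : ℂ) - 1) - 2 * (r : ℂ)) / 2 := by
      intro r _
      push_cast
      ring
    rw [Finset.prod_congr rfl h6, Finset.prod_div_distrib, Finset.prod_const, card_range]
  rw [h5, ← mul_div_assoc, prod_eq]

/-- The evaluation of the derangement sum for even `n`. -/
theorem result : ∀ n : ℕ, 1 < n → Even n → ∀ ζ : ℂ, IsPrimitiveRoot ζ n →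
    derSum n ζ = ((Nat.doubleFactorial (n - 1) : ℕ) : ℂ) ^ 2 / 2 ^ n ∧
    derSum n ζ = (n.factorial : ℂ) / 4 ^ n * (n.choose (n / 2) : ℂ) := by
  intro n hn heven ζ hζ
  refine ⟨main n hn heven ζ hζ, ?_⟩
  rw [main n hn heven ζ hζ]
  obtain ⟨m, rfl⟩ := heven.two_dvd
  rw [Nat.mul_div_cancel_left m (by norm_num)]
  exact second_form m

end Pool.Agent.Results.MP_cc6741_nt.DerangementSum
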